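import Pool.Agent.Lib.helper19.Heis

set_option autoImplicit false

namespace Pool.Agent.Results.MP_6bdaeb_co.Q1

open Pool.Agent.Lib.helper19.Heis

/-- The negated form of Q1. -/
theorem result :
    ∃ (V : Type) (G : SimpleGraph V), Infinite V ∧ G.Connected ∧
      (∀ v, (G.neighborSet v).Finite) ∧ VT G ∧
      (∀ r : ℕ, 1 ≤ r → ∃ (W : Type) (H : SimpleGraph W),
        Finite W ∧ H.Connected ∧ VT H ∧ SameBall G H r) ∧
      ∀ c : ℝ, ∃ r : ℕ, 1 ≤ r ∧ ∀ (W : Type) (H : SimpleGraph W),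
        Finite W → H.Connected → VT H → SameBall G H r → c * r < H.diam :=
  both.1

end Pool.Agent.Results.MP_6bdaeb_co.Q1
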