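import Pool.Agent.Lib.helper19.Heis

set_option autoImplicit false

namespace Pool.Agent.Results.MP_6bdaeb_co.Q2

open Pool.Agent.Lib.helper19.Heis

/-- The negated form of Q2. -/
theorem result :
    ∃ d : ℕ, ∀ c : ℝ, ∃ (W : Type) (H : SimpleGraph W) (r : ℕ),
      Finite W ∧ H.Connected ∧ VT H ∧ (∀ v, (H.neighborSet v).ncard = d) ∧ 1 ≤ r ∧
      ∀ (W' : Type) (H' : SimpleGraph W'),
        Finite W' → H'.Connected → VT H' → SameBall H H' r → c * r < H'.diam :=
  both.2

end Pool.Agent.Results.MP_6bdaeb_co.Q2
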